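import Pool.Agent.H15.GEO.Cel

/-!
# H33/GEO/DaBr: the array of the foreign leaf is a function of the data of the pair

`scor`: the corner of the cell of the affine chart in the coordinates of the slanted cells, a
function of the time, the cell and the sheet. `cell_rel`: the index of the slanted cell is next to
the corner. `da_br`: the array is a function of the labels, the time, the cell and a branch.
-/

set_option autoImplicit false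

namespace Pool.TUB

open Finset Real
open Pool.Agent.H49.Ent Pool.Agent.H32.Dense Pool.STK Pool.KA Pool.KSAT Pool.K2S Pool.PB
  Pool.STAT Pool.STAT.CLO Pool.GEN Pool.M3F Pool.KAF Pool.KAL Pool.KS3 Pool.KJA Pool.IEN Pool.EXS
open Pool.GEO (gsy gsy_zero gsy_succ gsy_tri gsy_deg xte xte_near)
open Pool.PM (lev nx nt lfv PLab)
open Pool.JPN (ntc ce yc yc_nonneg yc_lt)

/-- An index next to a floor. -/
theorem rel_of {c s t : ℝ} {b : ℤ} (h1 : |s| ≤ 1 / 2) (h2 : |c - b + s - t| ≤ 1 / 2)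
    (t0 : 0 ≤ t) (t1 : t < 1) : ⌊c⌋ - 1 ≤ b ∧ b ≤ ⌊c⌋ + 1 := by
  have a1 := abs_le.1 h1
  have a2 := abs_le.1 h2
  have f1 := Int.floor_le c
  have f2 := Int.lt_floor_add_one c
  constructor
  · have h3 : ((⌊c⌋ - 2 : ℤ) : ℝ) < (b : ℝ) := by
      push_cast
      linarith [a1.1, a2.2]
    have h4 : ⌊c⌋ - 2 < b := by exact_mod_cast h3
    omega
  · have h3 : (b : ℝ) < ((⌊c⌋ + 2 : ℤ) : ℝ) := by
      push_cast
      linarith [a1.2, a2.1]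
    have h4 : b < ⌊c⌋ + 2 := by exact_mod_cast h3
    omega

/-- The corner of the cell `ce` in the coordinates of the slanted cells `N`. -/
noncomputable def scor (J W W₀ M T : ℕ) (N : Fin 4 → ℕ) (g : ℕ → ℕ) (d : ℕ) (q : Fin 4 → ℝ)
    (ce : Fin 3 → ℤ) : Fin 4 → ℝ :=
  Fin.cons ((2 ^ W * ((T : ℝ) / 2 ^ J)) * (M / N 0))
    (fun l : Fin 3 => snu W M N g d l * (if l = 2 then
      ce 2 - 2 ^ d * lev q (2 ^ W₀ * ((T : ℝ) / 2 ^ J) - (T / 2 ^ (J - W₀) : ℕ)) (ce 0 / 2 ^ d)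
        (ce 1 / 2 ^ d) else (ce l : ℝ)))

theorem snu_nonneg (W M : ℕ) (N : Fin 4 → ℕ) (g : ℕ → ℕ) (d : ℕ) (l : Fin 3) :
    0 ≤ snu W M N g d l := by
  unfold snu
  positivity

/-- The displacement in the cell of the affine chart. -/
theorem sS_half {ν : Fin 3 → ℝ} {q : Fin 4 → ℝ} {H : ℝ} (hH : 1 ≤ H) (hν0 : ∀ l, 0 ≤ ν l)
    (hν : ∀ l, ν l * (1 + 2 * H) ≤ 1 / 2) (hq : ∀ i, |q i| ≤ H) {y : Fin 3 → ℝ}
    (y0 : ∀ i, 0 ≤ y i) (y1 : ∀ i, y i ≤ 1) (l : Fin 3) : |∑ i, sS ν q l i * y i| ≤ 1 / 2 := by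
  have hy : ∀ i, |y i| ≤ 1 := fun i => by
    rw [abs_of_nonneg (y0 i)]
    exact y1 i
  have hl : l = 0 ∨ l = 1 ∨ l = 2 := by
    fin_cases l
    · exact Or.inl rfl
    · exact Or.inr (Or.inl rfl)
    · exact Or.inr (Or.inr rfl)
  obtain ⟨s0, s1, s2⟩ := sS_sum ν q y
  have one : ∀ l : Fin 3, |ν l * y l| ≤ 1 / 2 := fun l => by
    rw [abs_mul, abs_of_nonneg (hν0 l)]
    have h1 : ν l * |y l| ≤ ν l * 1 := mul_le_mul_of_nonneg_left (hy l) (hν0 l)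
    have h2 : ν l * 1 ≤ ν l * (1 + 2 * H) := mul_le_mul_of_nonneg_left (by linarith) (hν0 l)
    linarith [hν l]
  rcases hl with rfl | rfl | rfl
  · rw [s0]
    exact one 0
  · rw [s1]
    exact one 1
  · rw [s2, abs_mul, abs_of_nonneg (hν0 2)]
    refine le_trans (mul_le_mul_of_nonneg_left ?_ (hν0 2)) (hν 2)
    have m0 : |q 2 * y 0| ≤ H := by
      rw [abs_mul]
      calc |q 2| * |y 0| ≤ H * 1 := mul_le_mul (hq 2) (hy 0) (abs_nonneg _) (by linarith)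
        _ = H := mul_one H
    have m1 : |q 3 * y 1| ≤ H := by
      rw [abs_mul]
      calc |q 3| * |y 1| ≤ H * 1 := mul_le_mul (hq 3) (hy 1) (abs_nonneg _) (by linarith)
        _ = H := mul_one H
    have a0 := abs_le.1 m0
    have a1 := abs_le.1 m1
    have a2 := abs_le.1 (hy 2)
    rw [abs_le]
    constructor <;> linarith [a0.1, a0.2, a1.1, a1.2, a2.1, a2.2]

variable {m J : ℕ} {F : Fam m J}

/-- **The index of the slanted cell is next to the corner.** -/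
theorem cell_rel {V₀ : Type} (c : ℕ → Fin m) {W W₀ Pr : ℕ} (sg : ℕ) {P : V₀ → ℕ → PN}
    (htri : ∀ v, TriN (P v)) (z₀ : PtT F → V₀) {g : ℕ → ℕ} {d : ℕ} {q : Fin 4 → ℝ}
    {N : Fin 4 → ℕ} {H Lg : ℝ} (hWP : W ≤ Pr) (hP : Pr ≤ J) (hN : ∀ i, 1 ≤ N i) (hL : 0 ≤ Lg)
    (hH : 1 ≤ H) (h1 : ∀ j, (3 + 8 * Lg) / N j ≤ 1 / 2)
    (h2 : ∀ l, snu W (2 ^ (Pr - W)) N g d l * (1 + 2 * H) ≤ 1 / 2) (hq : ∀ i, |q i| ≤ H)
    (ω : F.Ω)
    (hgr : ∀ i j (x : Fin 4 → ℝ), |MvPolynomial.eval x (MvPolynomial.pderiv j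
      (gsy 3 W (sls (P (z₀ (ptr F J ω))) g W₀ (F.T1 W₀ ω) q) i))| ≤ Lg) (i : Fin 4) :
    ⌊scor J W W₀ (2 ^ (Pr - W)) (F.T ω) N g d q (ce 3 F c P z₀ g d ω) i⌋ - 1 ≤
        nidx N (ndg (2 ^ (Pr - W)) (gsy 3 W (sls (P (z₀ (ptr F J ω))) g W₀ (F.T1 W₀ ω) q))
          (bse (xte c 3 W Pr sg F ω))) i ∧
      nidx N (ndg (2 ^ (Pr - W)) (gsy 3 W (sls (P (z₀ (ptr F J ω))) g W₀ (F.T1 W₀ ω) q))
          (bse (xte c 3 W Pr sg F ω))) i ≤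
        ⌊scor J W W₀ (2 ^ (Pr - W)) (F.T ω) N g d q (ce 3 F c P z₀ g d ω) i⌋ + 1 := by
  obtain ⟨G, hG⟩ : ∃ G, G = gsy 3 W (sls (P (z₀ (ptr F J ω))) g W₀ (F.T1 W₀ ω) q) := ⟨_, rfl⟩
  obtain ⟨M, hM⟩ : ∃ M : ℕ, M = 2 ^ (Pr - W) := ⟨_, rfl⟩
  have hM1 : 1 ≤ M := by rw [hM]; exact Nat.one_le_two_pow
  rw [← hG, ← hM]
  rw [← hG] at hgr
  rw [← hM] at h2
  obtain ⟨x, hx⟩ : ∃ x, x = bse (xte c 3 W Pr sg F ω) := ⟨_, rfl⟩
  rw [← hx]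
  obtain ⟨b, hb⟩ : ∃ b, b = nidx N (ndg M G x) := ⟨_, rfl⟩
  rw [← hb]
  have hGt : TriP G := by rw [hG]; exact gsy_tri (sls_tri (htri _) g W₀ _ q)
  have hn := pos_near hM1 hN hGt hL (by norm_num : (0 : ℝ) ≤ 2) hgr (x := x)
    (p := bpx F c 3 W ω) (fun j => by
      rw [hx, hM]
      exact bpx_near c 3 sg hWP hP ω j) i
  rw [← hb] at hn
  have hr := rpos_bpx c (W := W) (W₀ := W₀) (M := M) htri z₀ (g := g) (d := d) (q := q) (N := N)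
    (b := b) hM1 hN ω
  rw [← hG] at hr
  rw [hr] at hn
  have hn2 : |slv (2 ^ W * ((F.T ω : ℝ) / 2 ^ J) * (M / N 0) - b 0)
      (sB (snu W M N g d) q d (nt F W₀ ω) (ce 3 F c P z₀ g d ω) b)
      (sS (snu W M N g d) q) (yc 3 F c P z₀ g d ω) i -
        (nrem N (ndg M G x) i : ℝ) / (N i : ℝ)| ≤ 1 / 2 := by
    refine hn.trans (le_trans (le_of_eq ?_) (h1 i))
    norm_num
    ring
  have hN0 : (0 : ℝ) < N i := by exact_mod_cast hN i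
  have t0 : 0 ≤ (nrem N (ndg M G x) i : ℝ) / (N i : ℝ) := by positivity
  have t1 : (nrem N (ndg M G x) i : ℝ) / (N i : ℝ) < 1 := by
    rw [div_lt_one hN0]
    exact_mod_cast nrem_lt hN _ i
  obtain ⟨s, hs⟩ : ∃ s : Fin 4 → ℝ, s = Fin.cons 0 (fun l : Fin 3 =>
    ∑ i, sS (snu W M N g d) q l i * yc 3 F c P z₀ g d ω i) := ⟨_, rfl⟩
  have hs2 : |s i| ≤ 1 / 2 := by
    rw [hs]
    refine Fin.cases ?_ (fun l => ?_) i
    · show |(0 : ℝ)| ≤ 1 / 2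
      rw [abs_zero]
      norm_num
    · exact sS_half hH (fun l => snu_nonneg W M N g d l) h2 hq (fun i => yc_nonneg ω i)
        (fun i => (yc_lt ω i).le) l
  refine rel_of hs2 ?_ t0 t1
  have e1 : scor J W W₀ M (F.T ω) N g d q (ce 3 F c P z₀ g d ω) i - (b i : ℝ) + s i =
      slv (2 ^ W * ((F.T ω : ℝ) / 2 ^ J) * (M / N 0) - b 0)
      (sB (snu W M N g d) q d (nt F W₀ ω) (ce 3 F c P z₀ g d ω) b)
      (sS (snu W M N g d) q) (yc 3 F c P z₀ g d ω) i := by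
    rw [hs]
    refine Fin.cases ?_ (fun l => ?_) i
    · show 2 ^ W * ((F.T ω : ℝ) / 2 ^ J) * (M / N 0) - (b 0 : ℝ) + 0 = _
      rw [slv_zero, add_zero]
    · rw [slv_succ]
      rfl
  rw [e1]
  exact hn2

/-- The index of a branch: a branch of the leaf, and the relative index of the slanted cell. -/
noncomputable def brE (D n₀ : ℕ) : (Fin D × Fin n₀) × (Fin 4 → Fin 3) ≃ Fin (D * n₀ * 81) :=
  (Equiv.prodCongr finProdFinEquiv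
    (finFunctionFinEquiv.trans (finCongr (by norm_num)))).trans finProdFinEquiv

/-- **The array of the foreign leaf** is a function of the labels, the time, the cell and a
branch. -/
theorem da_br {K : ℕ} (l : PLab F) (c : ℕ → Fin m) (W W₀ Pr sg L q dd : ℕ)
    (lv : l.V₁ → l.V₀ → Fin 4 → ℝ) {D n₀ : ℕ}
    (aF : l.V₁ × (l.V₀ × ℕ) → (Fin 4 → ℤ) → Fin D → Fin n₀ → MvPolynomial (Fin 4) ℝ)
    (kk : F.Ω × F.Ω → Fin D × Fin n₀) (H Lg : ℝ) (htri : ∀ v, TriN (l.P v)) (hWP : W ≤ Pr)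
    (hP : Pr ≤ J) (hL : 0 ≤ Lg) (hH : 1 ≤ H)
    (h1 : ∀ j, (3 + 8 * Lg) / nwS Pr W₀ l.g L q j ≤ 1 / 2)
    (h2 : ∀ l', snu W (2 ^ (Pr - W)) (nwS Pr W₀ l.g L q) l.g dd l' * (1 + 2 * H) ≤ 1 / 2) :
    ∃ (br : F.Ω × F.Ω → Fin (D * n₀ * 81))
      (AF : l.V₁ → l.V₀ → ℕ → (Fin 3 → ℤ) → Fin (D * n₀ * 81) → (Fin 3 → Fin (K + 1)) → ℝ),
      ∀ e, (∀ i, |l.sh lv e.1 e.2 i| ≤ H) →
        (∀ i j (x : Fin 4 → ℝ), |MvPolynomial.eval x (MvPolynomial.pderiv j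
          (sG l W W₀ lv (lbF l W₀ e) i))| ≤ Lg) →
        AF (l.z₁ (ptr F J e.2)) (l.z₀ (ptr F J e.1)) (F.T e.1) (ce 3 F c l.P l.z₀ l.g dd e.1)
            (br e) =
          arM K (slc (2 ^ W * ((F.T e.1 : ℝ) / 2 ^ J) *
                (((2 ^ (Pr - W) : ℕ) : ℝ) / (nwS Pr W₀ l.g L q 0 : ℝ)) -
              ceS l c W W₀ Pr sg L q lv (lbF l W₀ e) e.1 0)
            (sB (snu W (2 ^ (Pr - W)) (nwS Pr W₀ l.g L q) l.g dd) (l.sh lv e.1 e.2) dd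
              (nt F W₀ e.1) (ce 3 F c l.P l.z₀ l.g dd e.1)
              (ceS l c W W₀ Pr sg L q lv (lbF l W₀ e) e.1))
            (sS (snu W (2 ^ (Pr - W)) (nwS Pr W₀ l.g L q) l.g dd) (l.sh lv e.1 e.2))
            (MvPolynomial.C (1 / 2 ^ W) * aF (lbF l W₀ e)
              (ceS l c W W₀ Pr sg L q lv (lbF l W₀ e) e.1) (kk e).1 (kk e).2)) := by
  obtain ⟨N, hN⟩ : ∃ N, N = nwS Pr W₀ l.g L q := ⟨_, rfl⟩
  rw [← hN] at h2 ⊢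
  have hN1 : ∀ i, 1 ≤ N i := fun i => by rw [hN]; exact nwS_pos Pr W₀ l.g L q i
  refine ⟨fun e => brE D n₀ (kk e, fun i => ⟨min (ceS l c W W₀ Pr sg L q lv (lbF l W₀ e) e.1 i -
      ⌊scor J W W₀ (2 ^ (Pr - W)) (F.T e.1) N l.g dd (l.sh lv e.1 e.2)
        (ce 3 F c l.P l.z₀ l.g dd e.1) i⌋ + 1).toNat 2, by omega⟩),
    fun v₁ v₀ T ce' β => arM K (slc (2 ^ W * ((T : ℝ) / 2 ^ J) *
        (((2 ^ (Pr - W) : ℕ) : ℝ) / (N 0 : ℝ)) -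
          ((⌊scor J W W₀ (2 ^ (Pr - W)) T N l.g dd (lv v₁ v₀) ce' 0⌋ +
            ((((brE D n₀).symm β).2 0 : ℕ) : ℤ) - 1 : ℤ) : ℝ))
      (sB (snu W (2 ^ (Pr - W)) N l.g dd) (lv v₁ v₀) dd
        (2 ^ W₀ * ((T : ℝ) / 2 ^ J) - (T / 2 ^ (J - W₀) : ℕ)) ce'
        (fun i => ⌊scor J W W₀ (2 ^ (Pr - W)) T N l.g dd (lv v₁ v₀) ce' i⌋ +
          ((((brE D n₀).symm β).2 i : ℕ) : ℤ) - 1))
      (sS (snu W (2 ^ (Pr - W)) N l.g dd) (lv v₁ v₀))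
      (MvPolynomial.C (1 / 2 ^ W) * aF (v₁, (v₀, T / 2 ^ (J - W₀)))
        (fun i => ⌊scor J W W₀ (2 ^ (Pr - W)) T N l.g dd (lv v₁ v₀) ce' i⌋ +
          ((((brE D n₀).symm β).2 i : ℕ) : ℤ) - 1)
        ((brE D n₀).symm β).1.1 ((brE D n₀).symm β).1.2)), ?_⟩
  intro e hq hgr
  have key : (fun i => ⌊scor J W W₀ (2 ^ (Pr - W)) (F.T e.1) N l.g dd (l.sh lv e.1 e.2)
        (ce 3 F c l.P l.z₀ l.g dd e.1) i⌋ +
      ((min (ceS l c W W₀ Pr sg L q lv (lbF l W₀ e) e.1 i -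
      ⌊scor J W W₀ (2 ^ (Pr - W)) (F.T e.1) N l.g dd (l.sh lv e.1 e.2)
        (ce 3 F c l.P l.z₀ l.g dd e.1) i⌋ + 1).toNat 2 : ℕ) : ℤ) - 1) =
      ceS l c W W₀ Pr sg L q lv (lbF l W₀ e) e.1 := by
    funext i
    have h3 := cell_rel c sg htri l.z₀ (g := l.g) (d := dd) (q := l.sh lv e.1 e.2) (N := N)
      (W₀ := W₀) hWP hP hN1 hL hH (fun j => by rw [hN]; exact h1 j) h2 hq e.1 hgr i
    have h4 : nidx N (ndg (2 ^ (Pr - W))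
        (gsy 3 W (sls (l.P (l.z₀ (ptr F J e.1))) l.g W₀ (F.T1 W₀ e.1) (l.sh lv e.1 e.2)))
          (bse (xte c 3 W Pr sg F e.1))) i = ceS l c W W₀ Pr sg L q lv (lbF l W₀ e) e.1 i := by
      rw [hN]
      rfl
    rw [h4] at h3
    have h5 := h3.1
    have h6 := h3.2
    omega
  dsimp only
  rw [Equiv.symm_apply_apply]
  dsimp only
  have key0 := congrFun key 0
  change arM K (slc (_ - ((⌊scor J W W₀ (2 ^ (Pr - W)) (F.T e.1) N l.g dd (l.sh lv e.1 e.2)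
        (ce 3 F c l.P l.z₀ l.g dd e.1) 0⌋ +
      ((min (ceS l c W W₀ Pr sg L q lv (lbF l W₀ e) e.1 0 -
      ⌊scor J W W₀ (2 ^ (Pr - W)) (F.T e.1) N l.g dd (l.sh lv e.1 e.2)
        (ce 3 F c l.P l.z₀ l.g dd e.1) 0⌋ + 1).toNat 2 : ℕ) : ℤ) - 1 : ℤ) : ℝ))
    (sB _ (l.sh lv e.1 e.2) dd (nt F W₀ e.1) _
      (fun i => ⌊scor J W W₀ (2 ^ (Pr - W)) (F.T e.1) N l.g dd (l.sh lv e.1 e.2)
        (ce 3 F c l.P l.z₀ l.g dd e.1) i⌋ +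
      ((min (ceS l c W W₀ Pr sg L q lv (lbF l W₀ e) e.1 i -
      ⌊scor J W W₀ (2 ^ (Pr - W)) (F.T e.1) N l.g dd (l.sh lv e.1 e.2)
        (ce 3 F c l.P l.z₀ l.g dd e.1) i⌋ + 1).toNat 2 : ℕ) : ℤ) - 1))
    (sS _ (l.sh lv e.1 e.2))
    (_ * aF (lbF l W₀ e) (fun i => ⌊scor J W W₀ (2 ^ (Pr - W)) (F.T e.1) N l.g dd
        (l.sh lv e.1 e.2) (ce 3 F c l.P l.z₀ l.g dd e.1) i⌋ +
      ((min (ceS l c W W₀ Pr sg L q lv (lbF l W₀ e) e.1 i -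
      ⌊scor J W W₀ (2 ^ (Pr - W)) (F.T e.1) N l.g dd (l.sh lv e.1 e.2)
        (ce 3 F c l.P l.z₀ l.g dd e.1) i⌋ + 1).toNat 2 : ℕ) : ℤ) - 1) _ _)) = _
  rw [key0, key]

end Pool.TUB
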